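import Mathlib

set_option autoImplicit false

/-! From the fact that one of the difference vectors of any `K` reals lies in `S` to a lower bound for the measure of `S`
(helper488). -/

open Finset Filter MeasureTheory

namespace Pool.Agent.H488R2.LP

/-- the volume of a cylinder over `S` inside a box -/
theorem vol_cyl {K m : ℕ} (e : Fin m → Fin K) (he : Function.Injective e) (T : ℝ) (hT : 0 < T)
    (S : Set (Fin m → ℝ)) :
    volume {γ : Fin K → ℝ | (∀ k, γ k ∈ Set.Icc 0 T) ∧ (fun i => γ (e i)) ∈ S} ≤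
      volume S * ENNReal.ofReal (T ^ (K - m)) := by
  classical
  set p : Fin K → Prop := fun k => k ∈ Set.range e with hp
  let E := MeasurableEquiv.piEquivPiSubtypeProd (fun _ : Fin K => ℝ) p
  let g : Fin m ≃ {k // p k} := Equiv.ofInjective e he
  let G := MeasurableEquiv.piCongrLeft (fun _ : {k // p k} => ℝ) g
  have hG : MeasurePreserving G volume volume :=
    volume_measurePreserving_piCongrLeft (fun _ : {k // p k} => ℝ) g
  have hE : MeasurePreserving E volume volume := by
    have h0 := volume_preserving_piEquivPiSubtypeProd (fun _ : Fin K => ℝ) p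
    have e1 : Subtype.fintype p = Set.fintypeRange e := Subsingleton.elim _ _
    rw [e1] at h0
    exact h0
  set D : Set ({k // ¬ p k} → ℝ) := Set.pi Set.univ (fun _ => Set.Icc 0 T) with hD
  have h1 : {γ : Fin K → ℝ | (∀ k, γ k ∈ Set.Icc 0 T) ∧ (fun i => γ (e i)) ∈ S} ⊆
      E ⁻¹' ((G '' S) ×ˢ D) := by
    rintro γ ⟨hγ1, hγ2⟩
    refine ⟨⟨_, hγ2, ?_⟩, ?_⟩
    · funext k
      obtain ⟨i, rfl⟩ := g.surjective k
      show (MeasurableEquiv.piCongrLeft (fun _ : {k // p k} => ℝ) g) _ (g i) = _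
      rw [MeasurableEquiv.coe_piCongrLeft, Equiv.piCongrLeft_apply_apply]
      rfl
    · rw [hD, Set.mem_univ_pi]
      intro k
      exact hγ1 _
  have h2 : volume (G '' S) = volume S := by
    have h3 := hG.measure_preimage_equiv (G '' S)
    rw [← h3, Set.preimage_image_eq _ G.injective]
  have h3 : volume D = ENNReal.ofReal (T ^ (K - m)) := by
    have hc : Fintype.card {k // ¬ p k} = K - m := by
      rw [Fintype.card_subtype_compl, Fintype.card_fin, ← Fintype.card_congr g, Fintype.card_fin]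
    rw [hD, volume_pi_pi]
    simp only [Real.volume_Icc, sub_zero, prod_const, card_univ, hc]
    rw [ENNReal.ofReal_pow hT.le]
  calc volume {γ : Fin K → ℝ | (∀ k, γ k ∈ Set.Icc 0 T) ∧ (fun i => γ (e i)) ∈ S}
      ≤ volume (E ⁻¹' ((G '' S) ×ˢ D)) := measure_mono h1
    _ = volume ((G '' S) ×ˢ D) := hE.measure_preimage_equiv _
    _ = volume (G '' S) * volume D := Measure.prod_prod _ _
    _ = volume S * ENNReal.ofReal (T ^ (K - m)) := by rw [h2, h3]

/-- the shear -/
noncomputable def shear {K m : ℕ} (j : Fin (m + 1) → Fin K) : Matrix (Fin K) (Fin K) ℝ := by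
  classical
  exact fun k l => (if k = l then 1 else 0) -
    (if ∃ i : Fin m, k = j i.succ ∧ l = j i.castSucc then 1 else 0)

theorem shear_det {K m : ℕ} (j : Fin (m + 1) → Fin K) (hj : StrictMono j) : (shear j).det = 1 := by
  classical
  rw [Matrix.det_of_isLowerTriangular]
  · apply Finset.prod_eq_one
    intro k _
    have h1 : ¬ ∃ i : Fin m, k = j i.succ ∧ k = j i.castSucc := by
      rintro ⟨i, h1, h2⟩
      have h3 := hj (Fin.castSucc_lt_succ (i := i))
      rw [← h1, ← h2] at h3
      exact lt_irrefl _ h3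
    unfold shear
    rw [if_pos rfl, if_neg h1, sub_zero]
  · intro k l hkl
    have hkl' : k < l := hkl
    have h1 : ¬ ∃ i : Fin m, k = j i.succ ∧ l = j i.castSucc := by
      rintro ⟨i, h1, h2⟩
      have h3 := hj (Fin.castSucc_lt_succ (i := i))
      rw [← h1, ← h2] at h3
      exact lt_asymm hkl' h3
    unfold shear
    rw [if_neg hkl'.ne, if_neg h1, sub_zero]

theorem shear_succ {K m : ℕ} (j : Fin (m + 1) → Fin K) (hj : StrictMono j) (β : Fin K → ℝ) (i : Fin m) :
    (Matrix.toLin' (shear j)) β (j i.succ) = β (j i.succ) - β (j i.castSucc) := by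
  classical
  rw [Matrix.toLin'_apply]
  unfold Matrix.mulVec dotProduct shear
  simp only [sub_mul, Finset.sum_sub_distrib]
  congr 1
  · rw [Finset.sum_eq_single (j i.succ)]
    · rw [if_pos rfl, one_mul]
    · intro b _ hb
      rw [if_neg hb.symm, zero_mul]
    · intro hn
      exact absurd (Finset.mem_univ _) hn
  · rw [Finset.sum_eq_single (j i.castSucc)]
    · rw [if_pos ⟨i, rfl, rfl⟩, one_mul]
    · intro b _ hb
      rw [if_neg, zero_mul]
      rintro ⟨i', h1, h2⟩
      have h3 := hj.injective h1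
      rw [Fin.succ_inj] at h3
      rw [← h3] at h2
      exact hb h2
    · intro hn
      exact absurd (Finset.mem_univ _) hn

theorem shear_other {K m : ℕ} (j : Fin (m + 1) → Fin K) (β : Fin K → ℝ) (k : Fin K)
    (hk : ∀ i : Fin m, k ≠ j i.succ) : (Matrix.toLin' (shear j)) β k = β k := by
  classical
  rw [Matrix.toLin'_apply]
  unfold Matrix.mulVec dotProduct shear
  rw [Finset.sum_eq_single k]
  · show ((if k = k then 1 else 0) - if ∃ i : Fin m, k = j i.succ ∧ k = j i.castSucc then 1 else 0) * β k = β k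
    rw [if_pos rfl, if_neg, sub_zero, one_mul]
    rintro ⟨i, h1, -⟩
    exact hk i h1
  · intro b _ hb
    show ((if k = b then 1 else 0) - if ∃ i : Fin m, k = j i.succ ∧ b = j i.castSucc then 1 else 0) * β b = 0
    rw [if_neg hb.symm, if_neg, sub_zero, zero_mul]
    rintro ⟨i, h1, -⟩
    exact hk i h1
  · intro hn
    exact absurd (Finset.mem_univ _) hn

theorem dens {K m : ℕ} {c : ℝ} (hc : 0 < c) (S : Set (Fin m → ℝ)) (hS : MeasurableSet S)
    (h : ∀ β : Fin K → ℝ, StrictMono β → (∀ j, 0 < β j ∧ β j ≤ c) →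
      ∃ j : Fin (m + 1) → Fin K, StrictMono j ∧ (fun i : Fin m => β (j i.succ) - β (j i.castSucc)) ∈ S) :
    ∃ c' : ℝ, 0 < c' ∧ ∀ T : ℝ, 0 < T → T ≤ c' →
      ENNReal.ofReal (c' * T ^ m) ≤ volume (S ∩ {v | ∀ i, v i ∈ Set.Icc 0 T}) := by
  classical
  have hK : m + 1 ≤ K := by
    obtain ⟨j, hj, -⟩ := h (fun k => c * (((k : ℕ) : ℝ) + 1) / (K + 1)) (by
      intro a b hab
      have h1 : ((a : ℕ) : ℝ) < ((b : ℕ) : ℝ) := by exact_mod_cast hab
      have h2 : (0 : ℝ) < K + 1 := by positivity
      show c * (((a : ℕ) : ℝ) + 1) / (K + 1) < c * (((b : ℕ) : ℝ) + 1) / (K + 1)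
      apply div_lt_div_of_pos_right _ h2
      apply mul_lt_mul_of_pos_left _ hc
      linarith) (by
      intro a
      refine ⟨by positivity, ?_⟩
      have h2 : (0 : ℝ) < K + 1 := by positivity
      rw [div_le_iff₀ h2]
      apply mul_le_mul_of_nonneg_left _ hc.le
      have h1 : ((a : ℕ) : ℝ) < K := by exact_mod_cast a.2
      linarith)
    simpa using Fintype.card_le_of_injective j hj.injective
  have hK0 : (0 : ℝ) < K := by
    have : 0 < K := by omega
    exact_mod_cast this
  refine ⟨min c (1 / (K : ℝ) ^ (K + (m + 1))), by positivity, fun T hT hTc => ?_⟩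
  set S' := S ∩ {v : Fin m → ℝ | ∀ i, v i ∈ Set.Icc 0 T} with hS'
  have hS'm : MeasurableSet S' := by
    apply hS.inter
    have : {v : Fin m → ℝ | ∀ i, v i ∈ Set.Icc 0 T} = Set.pi Set.univ (fun _ => Set.Icc 0 T) := by
      ext v
      simp only [Set.mem_setOf_eq, Set.mem_univ_pi]
    rw [this]
    exact MeasurableSet.univ_pi fun _ => measurableSet_Icc
  set J := (univ : Finset (Fin (m + 1) → Fin K)).filter StrictMono with hJ
  let C : (Fin (m + 1) → Fin K) → Set (Fin K → ℝ) := fun j =>
    {γ | (∀ k, γ k ∈ Set.Icc 0 T) ∧ (fun i : Fin m => γ (j i.succ)) ∈ S'}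
  have hCm : ∀ j, MeasurableSet (C j) := by
    intro j
    have h1 : C j = (Set.pi Set.univ (fun _ => Set.Icc 0 T)) ∩
        (fun γ : Fin K → ℝ => (fun i : Fin m => γ (j i.succ))) ⁻¹' S' := by
      ext γ
      simp only [C, Set.mem_setOf_eq, Set.mem_inter_iff, Set.mem_univ_pi, Set.mem_preimage]
    rw [h1]
    refine (MeasurableSet.univ_pi fun _ => measurableSet_Icc).inter (MeasurableSet.preimage hS'm ?_)
    exact measurable_pi_lambda _ fun i => measurable_pi_apply _
  set B : Set (Fin K → ℝ) := Set.pi Set.univ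
    (fun k : Fin K => Set.Ioo (T * ((k : ℕ) : ℝ) / K) (T * (((k : ℕ) : ℝ) + 1) / K)) with hB
  have hBsub : B ⊆ ⋃ j ∈ J, (Matrix.toLin' (shear j)) ⁻¹' (C j) := by
    intro β hβ
    rw [hB, Set.mem_univ_pi] at hβ
    have hmono : StrictMono β := by
      intro a b hab
      have h1 : ((a : ℕ) : ℝ) + 1 ≤ ((b : ℕ) : ℝ) := by exact_mod_cast hab
      have h2 := (hβ a).2
      have h3 := (hβ b).1
      have h4 : T * (((a : ℕ) : ℝ) + 1) / K ≤ T * ((b : ℕ) : ℝ) / K := by
        apply div_le_div_of_nonneg_right _ hK0.le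
        exact mul_le_mul_of_nonneg_left h1 hT.le
      linarith
    have hpos : ∀ k, 0 < β k := by
      intro k
      have h3 := (hβ k).1
      have h4 : 0 ≤ T * ((k : ℕ) : ℝ) / K := by positivity
      linarith
    have hle : ∀ k, β k ≤ T := by
      intro k
      have h3 := (hβ k).2
      have h4 : T * (((k : ℕ) : ℝ) + 1) / K ≤ T := by
        rw [div_le_iff₀ hK0]
        apply mul_le_mul_of_nonneg_left _ hT.le
        exact_mod_cast k.2
      linarith
    obtain ⟨j, hj, hjS⟩ := h β hmono (fun k => ⟨hpos k, (hle k).trans (hTc.trans (min_le_left _ _))⟩)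
    have hdiff : ∀ i : Fin m, β (j i.succ) - β (j i.castSucc) ∈ Set.Icc 0 T := by
      intro i
      have h1 := hmono (hj (Fin.castSucc_lt_succ (i := i)))
      have h2 := hpos (j i.castSucc)
      have h3 := hle (j i.succ)
      exact ⟨by linarith, by linarith⟩
    rw [Set.mem_iUnion₂]
    refine ⟨j, ?_, ?_⟩
    · rw [hJ, Finset.mem_filter]
      exact ⟨Finset.mem_univ _, hj⟩
    · refine ⟨?_, ?_, ?_⟩
      · intro k
        by_cases hk : ∃ i : Fin m, k = j i.succ
        · obtain ⟨i, rfl⟩ := hk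
          rw [shear_succ j hj β i]
          exact hdiff i
        · push Not at hk
          rw [shear_other j β k hk]
          exact ⟨(hpos k).le, hle k⟩
      · have h1 : (fun i : Fin m => (Matrix.toLin' (shear j)) β (j i.succ)) =
            fun i : Fin m => β (j i.succ) - β (j i.castSucc) := by
          funext i
          exact shear_succ j hj β i
        rw [h1]
        exact hjS
      · intro i
        show (Matrix.toLin' (shear j)) β (j i.succ) ∈ _
        rw [shear_succ j hj β i]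
        exact hdiff i
  have hvB : volume B = ENNReal.ofReal ((T / K) ^ K) := by
    rw [hB, volume_pi_pi]
    have h1 : ∀ k : Fin K, volume (Set.Ioo (T * ((k : ℕ) : ℝ) / K) (T * (((k : ℕ) : ℝ) + 1) / K)) =
        ENNReal.ofReal (T / K) := by
      intro k
      rw [Real.volume_Ioo]
      congr 1
      field_simp
      ring
    simp only [h1, prod_const, card_univ, Fintype.card_fin]
    rw [ENNReal.ofReal_pow (by positivity)]
  have hvC : ∀ j ∈ J, volume ((Matrix.toLin' (shear j)) ⁻¹' (C j)) ≤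
      volume S' * ENNReal.ofReal (T ^ (K - m)) := by
    intro j hj
    rw [hJ, Finset.mem_filter] at hj
    have hdet := shear_det j hj.2
    have h1 := Real.map_matrix_volume_pi_eq_smul_volume_pi (M := shear j) (by rw [hdet]; norm_num)
    rw [hdet] at h1
    simp only [inv_one, abs_one, ENNReal.ofReal_one, one_smul] at h1
    have h2 : volume ((Matrix.toLin' (shear j)) ⁻¹' (C j)) = volume (C j) := by
      conv_rhs => rw [← h1]
      rw [Measure.map_apply _ (hCm j)]
      exact (LinearMap.continuous_on_pi _).measurable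
    rw [h2]
    exact vol_cyl (fun i : Fin m => j i.succ) (hj.2.injective.comp (Fin.succ_injective _)) T hT S'
  have hcardJ : (J.card : ℝ) ≤ (K : ℝ) ^ (m + 1) := by
    have h1 : J.card ≤ Fintype.card (Fin (m + 1) → Fin K) := Finset.card_le_univ _
    rw [Fintype.card_fun, Fintype.card_fin, Fintype.card_fin] at h1
    exact_mod_cast h1
  have hmain : ENNReal.ofReal ((T / K) ^ K) ≤
      ENNReal.ofReal ((K : ℝ) ^ (m + 1) * T ^ (K - m)) * volume S' := by
    rw [← hvB]
    calc volume B ≤ volume (⋃ j ∈ J, (Matrix.toLin' (shear j)) ⁻¹' (C j)) := measure_mono hBsub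
      _ ≤ ∑ j ∈ J, volume ((Matrix.toLin' (shear j)) ⁻¹' (C j)) := measure_biUnion_finset_le _ _
      _ ≤ ∑ j ∈ J, volume S' * ENNReal.ofReal (T ^ (K - m)) := Finset.sum_le_sum hvC
      _ = (J.card : ENNReal) * (volume S' * ENNReal.ofReal (T ^ (K - m))) := by
        rw [Finset.sum_const, nsmul_eq_mul]
      _ ≤ ENNReal.ofReal ((K : ℝ) ^ (m + 1)) * (volume S' * ENNReal.ofReal (T ^ (K - m))) := by
        gcongr
        rw [← ENNReal.ofReal_natCast]
        exact ENNReal.ofReal_le_ofReal hcardJ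
      _ = ENNReal.ofReal ((K : ℝ) ^ (m + 1) * T ^ (K - m)) * volume S' := by
        rw [ENNReal.ofReal_mul (by positivity)]
        ring
  have hne : ENNReal.ofReal ((K : ℝ) ^ (m + 1) * T ^ (K - m)) ≠ 0 := by
    rw [Ne, ENNReal.ofReal_eq_zero, not_le]
    positivity
  rw [← ENNReal.mul_le_mul_iff_right hne ENNReal.ofReal_ne_top]
  refine le_trans ?_ hmain
  rw [← ENNReal.ofReal_mul (by positivity)]
  apply ENNReal.ofReal_le_ofReal
  have h1 : min c (1 / (K : ℝ) ^ (K + (m + 1))) ≤ 1 / (K : ℝ) ^ (K + (m + 1)) := min_le_right _ _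
  calc (K : ℝ) ^ (m + 1) * T ^ (K - m) * (min c (1 / (K : ℝ) ^ (K + (m + 1))) * T ^ m)
      ≤ (K : ℝ) ^ (m + 1) * T ^ (K - m) * (1 / (K : ℝ) ^ (K + (m + 1)) * T ^ m) := by gcongr
    _ = (T ^ (K - m) * T ^ m) * ((K : ℝ) ^ (m + 1) / (K : ℝ) ^ (K + (m + 1))) := by ring
    _ = T ^ K * ((K : ℝ) ^ (m + 1) / (K : ℝ) ^ (K + (m + 1))) := by
      rw [← pow_add, Nat.sub_add_cancel (by omega)]
    _ = (T / K) ^ K := by
      rw [div_pow, show (K : ℝ) ^ (K + (m + 1)) = (K : ℝ) ^ K * (K : ℝ) ^ (m + 1) from pow_add _ _ _]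
      field_simp

end Pool.Agent.H488R2.LP
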